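import Mathlib

set_option autoImplicit false

namespace Pool.Agent.Results.MP_f94ac9_gt.FreeParacompact

open Set Filter Topology
open scoped UniformConvergence

universe u

/-- Topological linear space over the discrete field of reals. -/
def IsTLS (E : Type u) [AddCommGroup E] [Module ℝ E] [TopologicalSpace E] : Prop :=
  T2Space E ∧ Continuous (fun p : E × E => p.1 + p.2) ∧ ∀ r : ℝ, Continuous (fun v : E => r • v)

/-- `L` with `i : X → L` is the free topological linear space over the discrete reals on `X`. -/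
def IsFree (X L : Type u) [TopologicalSpace X] [AddCommGroup L] [Module ℝ L]
    [TopologicalSpace L] (i : X → L) : Prop :=
  IsTLS L ∧ IsEmbedding i ∧ LinearIndependent ℝ i ∧ Submodule.span ℝ (range i) = ⊤ ∧
    ∀ (E : Type u) [AddCommGroup E] [Module ℝ E] [TopologicalSpace E], IsTLS E →
      ∀ f : X → E, Continuous f → ∃! F : L →ₗ[ℝ] E, Continuous F ∧ ∀ x, F (i x) = f x

lemma para0 {Z : Type u} [TopologicalSpace Z] [RegularSpace Z] {A : Type u} (ρ : A → ℕ)
    (N W' W : A → Set Z) (hW' : ∀ a, IsOpen (W' a)) (hW : ∀ a, IsOpen (W a))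
    (hN : ∀ a, N a ⊆ W' a) (hc : ∀ a, closure (W' a) ⊆ W a)
    (hlf : ∀ n x, ∃ t ∈ 𝓝 x, {a | ρ a = n ∧ (W a ∩ t).Nonempty}.Finite)
    (net : ∀ x U, IsOpen U → x ∈ U → ∃ a, x ∈ N a ∧ N a ⊆ U) : ParacompactSpace Z := by
  classical
  have hlf2 : ∀ n x, ∃ t ∈ 𝓝 x, {a | ρ a < n ∧ (W a ∩ t).Nonempty}.Finite := by
    intro n x
    induction n with
    | zero => exact ⟨univ, univ_mem, by simp⟩
    | succ n ih =>
      obtain ⟨t, ht, h⟩ := ih
      obtain ⟨t', ht', h'⟩ := hlf n x
      refine ⟨t ∩ t', inter_mem ht ht', (h.union h').subset ?_⟩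
      rintro a ⟨h1, y, hy, hy1, hy2⟩
      rcases Nat.lt_succ_iff_lt_or_eq.mp h1 with h2 | h2
      · exact Or.inl ⟨h2, y, hy, hy1⟩
      · exact Or.inr ⟨h2, y, hy, hy2⟩
  constructor
  intro α s hs hcov
  let B := {a : A // ∃ P : Set Z, ∃ j, IsOpen P ∧ N a ⊆ P ∧ closure P ⊆ s j}
  have hB : ∀ a : B, ∃ P : Set Z, ∃ j, IsOpen P ∧ N a ⊆ P ∧ closure P ⊆ s j := fun a => a.2
  choose P j hP hNP hPs using hB
  have hx : ∀ x, ∃ a : B, x ∈ P a ∩ W' a := by
    intro x
    obtain ⟨k, hk⟩ := mem_iUnion.mp (hcov.symm ▸ mem_univ x : x ∈ ⋃ a, s a)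
    obtain ⟨t, ht, htc, hts⟩ := exists_mem_nhds_isClosed_subset ((hs k).mem_nhds hk)
    obtain ⟨a, ha, haU⟩ := net x (interior t) isOpen_interior (mem_interior_iff_mem_nhds.mpr ht)
    let a' : B := ⟨a, interior t, k, isOpen_interior, haU,
      (closure_minimal interior_subset htc).trans hts⟩
    exact ⟨a', hNP a' ha, hN a ha⟩
  let S : B → Set Z := fun a => closure (P a ∩ W' a)
  have hSW : ∀ a, S a ⊆ W a := fun a => (closure_mono inter_subset_right).trans (hc a)
  have hSs : ∀ a, S a ⊆ s (j a) := fun a => (closure_mono inter_subset_left).trans (hPs a)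
  let F : ℕ → Set Z := fun n => ⋃ a : B, if ρ a < n then S a else ∅
  have hF : ∀ n, IsClosed (F n) := by
    intro n
    apply LocallyFinite.isClosed_iUnion
    · intro x
      obtain ⟨t, ht, h⟩ := hlf2 n x
      refine ⟨t, ht, (h.preimage Subtype.val_injective.injOn).subset ?_⟩
      rintro a ⟨y, hy, hyt⟩
      by_cases h1 : ρ a < n
      · simp only [h1, if_true] at hy
        exact ⟨h1, y, hSW a hy, hyt⟩
      · simp [h1] at hy
    · intro a
      split_ifs
      · exact isClosed_closure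
      · exact isClosed_empty
  refine ⟨B, fun a => (s (j a) ∩ W a) \ F (ρ a),
    fun a => ((hs _).inter (hW _)).sdiff (hF _), ?_, ?_, fun a => ⟨j a, fun y hy => hy.1.1⟩⟩
  · apply eq_univ_of_forall
    intro x
    have h1 : ∃ n, ∃ a : B, ρ a = n ∧ x ∈ S a := by
      obtain ⟨a, ha⟩ := hx x
      exact ⟨_, a, rfl, subset_closure ha⟩
    obtain ⟨a, ha, hxa⟩ := Nat.find_spec h1
    refine mem_iUnion.mpr ⟨a, ⟨hSs a hxa, hSW a hxa⟩, ?_⟩
    intro h2
    obtain ⟨a', ha'⟩ := mem_iUnion.mp h2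
    by_cases h3 : ρ a' < ρ a
    · simp only [h3, if_true] at ha'
      exact Nat.find_min h1 (ha ▸ h3) ⟨a', rfl, ha'⟩
    · simp [h3] at ha'
  · intro x
    obtain ⟨a, ha⟩ := hx x
    obtain ⟨t, ht, h⟩ := hlf2 (ρ a + 1) x
    refine ⟨t ∩ (P a ∩ W' a), inter_mem ht (((hP a).inter (hW' a)).mem_nhds ha),
      (h.preimage Subtype.val_injective.injOn).subset ?_⟩
    rintro a' ⟨y, ⟨hy1, hy2⟩, hyt, hy3⟩
    refine ⟨?_, y, hy1.2, hyt⟩
    by_contra h4
    apply hy2
    refine mem_iUnion.mpr ⟨a, ?_⟩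
    have h5 : ρ a < ρ a' := by omega
    simp only [h5, if_true]
    exact subset_closure hy3

lemma para {Z : Type u} [TopologicalSpace Z] [RegularSpace Z] {A : Type u} {C : Type}
    [Countable C] (ρ : A → C) {ι : Type u} (Φ : C → Z → ι → ℝ) (δ : C → ℝ) (hδ : ∀ c, 0 < δ c)
    (hΦ : ∀ c v0 ε, 0 < ε → ∀ᶠ v in 𝓝 v0, ∀ i, |Φ c v i - Φ c v0 i| < ε)
    (w : A → ι → ℝ) (hw : ∀ a a', ρ a = ρ a' → (∀ i, |w a i - w a' i| < δ (ρ a)) → a = a')
    (N : A → Set Z) (hN : ∀ a, ∀ v ∈ N a, Φ (ρ a) v = w a)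
    (net : ∀ x U, IsOpen U → x ∈ U → ∃ a, x ∈ N a ∧ N a ⊆ U) : ParacompactSpace Z := by
  obtain ⟨e, he⟩ := exists_injective_nat C
  let D : A → ℝ → Set Z := fun a r => {v | ∀ i, |Φ (ρ a) v i - w a i| ≤ r}
  have hD1 : ∀ a r r', r < r' → closure (D a r) ⊆ interior (D a r') := by
    intro a r r' h v hv
    rw [mem_interior_iff_mem_nhds]
    have h1 := hΦ (ρ a) v ((r' - r) / 2) (by linarith)
    obtain ⟨v1, hv1, hv2⟩ := mem_closure_iff_nhds.mp hv _ h1
    filter_upwards [h1] with v' hv' i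
    have a1 := abs_lt.mp (hv' i)
    have a2 := abs_lt.mp (hv1 i)
    have a3 := abs_le.mp (hv2 i)
    rw [abs_le]; constructor <;> linarith
  refine para0 (e ∘ ρ) N (fun a => interior (D a (δ (ρ a) / 8)))
    (fun a => interior (D a (δ (ρ a) / 4))) (fun _ => isOpen_interior) (fun _ => isOpen_interior)
    ?_ ?_ ?_ net
  · intro a v hv
    apply hD1 a 0 _ (by linarith [hδ (ρ a)])
    apply subset_closure
    intro i
    rw [hN a v hv]; simp
  · intro a
    exact (closure_mono interior_subset).trans (hD1 a _ _ (by linarith [hδ (ρ a)]))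
  · intro n x
    by_cases h : ∃ c, e c = n
    · obtain ⟨c, rfl⟩ := h
      refine ⟨_, hΦ c x (δ c / 4) (by linarith [hδ c]), Set.Subsingleton.finite ?_⟩
      rintro a ⟨ha, v, hv, hv'⟩ a' ⟨ha', v', hv2, hv2'⟩
      have e1 : ρ a = c := he ha
      have e2 : ρ a' = c := he ha'
      apply hw a a' (e1.trans e2.symm)
      intro i
      have a1 := abs_le.mp (interior_subset hv i)
      have a2 := abs_le.mp (interior_subset hv2 i)
      have a3 := abs_lt.mp (hv' i)
      have a4 := abs_lt.mp (hv2' i)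
      rw [e1] at a1 ⊢
      rw [e2] at a2
      rw [abs_lt]; constructor <;> linarith
    · refine ⟨univ, univ_mem, Set.Subsingleton.finite ?_⟩
      rintro a ⟨ha, -⟩
      exact absurd ⟨_, ha⟩ h

def EE (G : Type u) [AddCommGroup G] : Type u := ℝ →+ G

instance (G : Type u) [AddCommGroup G] : AddCommGroup (EE G) :=
  inferInstanceAs (AddCommGroup (ℝ →+ G))

def EE.fn {G : Type u} [AddCommGroup G] (f : EE G) : ℝ →+ G := f

instance (G : Type u) [AddCommGroup G] : Module ℝ (EE G) where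
  smul r f := (EE.fn f).comp (AddMonoidHom.mulRight r)
  one_smul f := AddMonoidHom.ext fun s => congrArg (EE.fn f) (mul_one s)
  mul_smul r t f := AddMonoidHom.ext fun s => congrArg (EE.fn f) (mul_assoc s r t).symm
  smul_zero r := AddMonoidHom.ext fun s => rfl
  smul_add r f g := AddMonoidHom.ext fun s => rfl
  add_smul r t f := AddMonoidHom.ext fun s =>
    (congrArg (EE.fn f) (mul_add s r t)).trans (map_add (EE.fn f) _ _)
  zero_smul f := AddMonoidHom.ext fun s =>
    (congrArg (EE.fn f) (mul_zero s)).trans (map_zero (EE.fn f))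

instance (G : Type u) [AddCommGroup G] [TopologicalSpace G] : TopologicalSpace (EE G) :=
  TopologicalSpace.induced (fun f s => EE.fn f s) inferInstance

lemma EE_cont {G : Type u} [AddCommGroup G] [TopologicalSpace G] {Y : Type u}
    [TopologicalSpace Y] (f : Y → EE G) :
    Continuous f ↔ ∀ s, Continuous fun y => EE.fn (f y) s := by
  rw [continuous_induced_rng, continuous_pi_iff]; rfl

lemma EE_tls (G : Type u) [AddCommGroup G] [TopologicalSpace G] [T2Space G] [ContinuousAdd G] :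
    IsTLS (EE G) := by
  have h0 : ∀ s, Continuous fun f : EE G => EE.fn f s := (EE_cont id).mp continuous_id
  refine ⟨?_, ?_, fun r => ?_⟩
  · exact T2Space.of_injective_continuous (f := fun (f : EE G) (s : ℝ) => EE.fn f s)
      (fun f g h => AddMonoidHom.ext fun s => congrFun h s) continuous_induced_dom
  · rw [EE_cont]
    intro s
    exact ((h0 s).comp continuous_fst).add ((h0 s).comp continuous_snd)
  · rw [EE_cont]
    intro s
    exact h0 (s * r)

abbrev HH : Type := Module.Basis.ofVectorSpaceIndex ℚ ℝ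

noncomputable def lam (s : ℝ) (h : HH) : ℚ := (Module.Basis.ofVectorSpace ℚ ℝ).repr s h

lemma lam_add (s t : ℝ) (h : HH) : lam (s + t) h = lam s h + lam t h := by simp [lam]

lemma lam_zero (h : HH) : lam 0 h = 0 := by simp [lam]

lemma lam_inj (s t : ℝ) (h : ∀ j, lam s j = lam t j) : s = t :=
  (Module.Basis.ofVectorSpace ℚ ℝ).repr.injective (Finsupp.ext h)

lemma lam_fin (s : ℝ) : (range (lam s)).Finite :=
  ((Module.Basis.ofVectorSpace ℚ ℝ).repr s).finite_range

lemma ext_lemma {X L : Type u} [MetricSpace X] [AddCommGroup L] [Module ℝ L]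
    [TopologicalSpace L] (i : X → L) (hF : IsFree X L i) (g : X → X → ℝ) (K : ℝ) (hK : 0 < K)
    (hg : ∀ z x y, |g z x - g z y| ≤ K * dist x y) :
    ∃ Φ : L → HH × X → ℝ, (∀ v0 ε, 0 < ε → ∀ᶠ v in 𝓝 v0, ∀ j, |Φ v j - Φ v0 j| < ε) ∧
      ∀ (T : Finset X) (a : X → ℝ) (y : X → X) (j : HH × X),
        Φ (∑ z ∈ T, a z • i (y z)) j = ∑ z ∈ T, (lam (a z) j.1 : ℝ) * g j.2 (y z) := by
  let f : X → EE ((HH × X) →ᵤ ℝ) := fun x => AddMonoidHom.mk'
    (fun s => UniformFun.ofFun (fun j => (lam s j.1 : ℝ) * g j.2 x)) (by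
      intro s t
      apply UniformFun.toFun.injective
      funext j
      show (lam (s + t) j.1 : ℝ) * g j.2 x = (lam s j.1 : ℝ) * g j.2 x + (lam t j.1 : ℝ) * g j.2 x
      rw [lam_add]; push_cast; ring)
  have hf : Continuous f := by
    rw [EE_cont]
    intro s
    rw [continuous_iff_continuousAt]
    intro x
    rw [ContinuousAt, UniformFun.tendsto_iff_tendstoUniformly, Metric.tendstoUniformly_iff]
    intro ε hε
    obtain ⟨M, hM⟩ := ((lam_fin s).image (fun q : ℚ => |(q : ℝ)|)).bddAbove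
    have hM' : ∀ h, |(lam s h : ℝ)| ≤ |M| + 1 := fun h => by
      have := hM ⟨_, ⟨h, rfl⟩, rfl⟩
      linarith [le_abs_self M]
    have hp : 0 < (|M| + 1) * K := by positivity
    filter_upwards [Metric.ball_mem_nhds x (div_pos hε hp)] with y hy j
    show dist ((lam s j.1 : ℝ) * g j.2 x) ((lam s j.1 : ℝ) * g j.2 y) < ε
    rw [Real.dist_eq, ← mul_sub, abs_mul]
    rw [Metric.mem_ball, lt_div_iff₀ hp, dist_comm] at hy
    calc _ ≤ (|M| + 1) * (K * dist x y) :=
          mul_le_mul (hM' _) (hg _ _ _) (abs_nonneg _) (by positivity)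
      _ < ε := by linarith
  obtain ⟨F, ⟨hF1, hF2⟩, -⟩ := hF.2.2.2.2 _ (EE_tls _) f hf
  refine ⟨fun v => UniformFun.toFun (EE.fn (F v) 1), ?_, ?_⟩
  · intro v0 ε hε
    have h1 := ((EE_cont F).mp hF1 1).continuousAt (x := v0)
    rw [ContinuousAt, UniformFun.tendsto_iff_tendstoUniformly, Metric.tendstoUniformly_iff] at h1
    filter_upwards [h1 ε hε] with v hv j
    have := hv j
    rw [Real.dist_eq, abs_sub_comm] at this
    exact this
  · intro T a y j
    classical
    induction T using Finset.induction_on with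
    | empty => simp only [Finset.sum_empty, map_zero]; rfl
    | insert z T hz ih =>
      beta_reduce at ih ⊢
      rw [Finset.sum_insert hz, Finset.sum_insert hz, ← ih, map_add, map_smul, hF2]
      show (lam (1 * a z) j.1 : ℝ) * g j.2 (y z) + _ = _
      rw [one_mul]
      rfl

lemma stone (X : Type u) [MetricSpace X] : ∃ (σ : ℕ → X → X) (S : ℕ → ℕ → Set X)
    (g : ℕ → ℕ → X → X → ℝ),
    (∀ n x, dist x (σ n x) < 1 / ((n : ℝ) + 1)) ∧ (∀ n x, ∀ᶠ k in atTop, x ∈ S n k) ∧
    (∀ n k z x y, |g n k z x - g n k z y| ≤ ((k : ℝ) + 1) * dist x y) ∧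
    (∀ n k, ∀ x ∈ S n k, g n k (σ n x) x = 1) ∧
    (∀ n k, ∀ x ∈ S n k, ∀ z, z ≠ σ n x → g n k z x = 0) := by
  classical
  obtain ⟨lo, wf⟩ := exists_wellFoundedLT X
  have hne : ∀ (n : ℕ) (x : X), {z | dist x z < 1 / ((n : ℝ) + 1)}.Nonempty :=
    fun n x => ⟨x, by show dist x x < _; rw [dist_self]; positivity⟩
  let σ : ℕ → X → X := fun n x => wellFounded_lt.min _ (hne n x)
  have h1 : ∀ n x, dist x (σ n x) < 1 / ((n : ℝ) + 1) :=
    fun n x => wellFounded_lt.min_mem _ (hne n x)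
  have h2 : ∀ (n : ℕ) x z, dist x z < 1 / ((n : ℝ) + 1) → σ n x ≤ z :=
    fun n x z h => not_lt.mp
      (wellFounded_lt.not_lt_min {z | dist x z < 1 / ((n : ℝ) + 1)} (x := z) h)
  let S : ℕ → ℕ → Set X := fun n k =>
    {x | ∀ y, dist x y < 1 / ((k : ℝ) + 1) → dist y (σ n x) < 1 / ((n : ℝ) + 1)}
  have h3 : ∀ n k, ∀ x ∈ S n k, ∀ y ∈ S n k, dist x y < 1 / ((k : ℝ) + 1) → σ n x = σ n y :=
    fun n k x hx y hy h => le_antisymm (h2 n x _ (hy x (dist_comm x y ▸ h))) (h2 n y _ (hx y h))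
  let C : ℕ → ℕ → X → Set X := fun n k z => {y | y ∈ S n k ∧ σ n y = z}
  refine ⟨σ, S, fun n k z x => if (C n k z).Nonempty then
    max 0 (1 - ((k : ℝ) + 1) * Metric.infDist x (C n k z)) else 0, h1, ?_, ?_, ?_, ?_⟩
  · intro n x
    have hp : 0 < 1 / ((n : ℝ) + 1) - dist x (σ n x) := by linarith [h1 n x]
    filter_upwards [(tendsto_order.mp tendsto_one_div_add_atTop_nhds_zero_nat).2 _ hp]
      with k hk y hy
    have := dist_triangle_left y (σ n x) x
    linarith
  · intro n k z x y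
    have hk : (0 : ℝ) < (k : ℝ) + 1 := by positivity
    beta_reduce
    split_ifs with h
    · refine (abs_max_sub_max_le_max _ _ _ _).trans (max_le (by simp; positivity) ?_)
      have a1 := Metric.infDist_le_infDist_add_dist (x := x) (y := y) (s := C n k z)
      have a2 := Metric.infDist_le_infDist_add_dist (x := y) (y := x) (s := C n k z)
      rw [dist_comm y x] at a2
      rw [abs_le]; constructor <;> nlinarith
    · simp; positivity
  · intro n k x hx
    have hm : x ∈ C n k (σ n x) := ⟨hx, rfl⟩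
    simp only [show (C n k (σ n x)).Nonempty from ⟨x, hm⟩, if_true]
    rw [Metric.infDist_zero_of_mem hm]; simp
  · intro n k x hx z hz
    have hk : (0 : ℝ) < (k : ℝ) + 1 := by positivity
    simp only
    split_ifs with h
    · have : 1 / ((k : ℝ) + 1) ≤ Metric.infDist x (C n k z) := by
        by_contra h4
        obtain ⟨y, hy, hxy⟩ := (Metric.infDist_lt_iff h).mp (not_le.mp h4)
        exact hz ((h3 n k x hx y hy.1 hxy).trans hy.2).symm
      rw [div_le_iff₀ hk] at this
      apply max_eq_left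
      linarith
    · rfl

lemma gap {Y : Type*} [MetricSpace Y] (T : Finset Y) :
    ∃ δ > 0, ∀ p ∈ T, ∀ q ∈ T, dist p q < δ → p = q := by
  have : ∀ᶠ δ in 𝓝[>] (0 : ℝ), ∀ p ∈ T, ∀ q ∈ T, dist p q < δ → p = q := by
    rw [eventually_all_finset]
    intro p _
    rw [eventually_all_finset]
    intro q _
    by_cases h : p = q
    · exact Eventually.of_forall fun _ _ => h
    · filter_upwards [Ioo_mem_nhdsGT (dist_pos.mpr h)] with δ hδ h'
      exact absurd h' (not_lt.mpr hδ.2.le)
  obtain ⟨δ, h1, h2⟩ := (this.and self_mem_nhdsWithin).exists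
  exact ⟨δ, h2, h1⟩

theorem result (X : Type u) [TopologicalSpace X] [TopologicalSpace.MetrizableSpace X]
    (L : Type u) [AddCommGroup L] [Module ℝ L] [TopologicalSpace L] (i : X → L)
    (hF : IsFree X L i) : T2Space L ∧ ParacompactSpace L := by
  classical
  refine ⟨hF.1.1, ?_⟩
  let _ : MetricSpace X := TopologicalSpace.metrizableSpaceMetric X
  have : ContinuousAdd L := ⟨hF.1.2.1⟩
  have : ContinuousConstSMul ℝ L := ⟨hF.1.2.2⟩
  have : ContinuousNeg L := ⟨by simpa using hF.1.2.2 (-1)⟩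
  have : IsTopologicalAddGroup L := {}
  obtain ⟨σ, S, g, h1, h2, h3, h4, h5⟩ := stone X
  choose Φ hΦ1 hΦ2 using fun c : ℕ × ℕ × Finset ℚ =>
    ext_lemma i hF (g c.1 c.2.1) ((c.2.1 : ℝ) + 1) (by positivity) (h3 c.1 c.2.1)
  choose δ hδ hδ2 using fun c : ℕ × ℕ × Finset ℚ => gap c.2.2
  let A := {p : (ℕ × ℕ × Finset ℚ) × (X →₀ ℝ) // ∀ z h, lam (p.2 z) h ∈ p.1.2.2}
  refine para (A := A) (fun a => a.1.1) Φ δ hδ hΦ1 (fun a j => (lam (a.1.2 j.2) j.1 : ℝ)) ?_
    (fun a => {v | ∃ y : X → X, (∀ z ∈ a.1.2.support, y z ∈ S a.1.1.1 a.1.1.2.1 ∧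
      σ a.1.1.1 (y z) = z) ∧ v = ∑ z ∈ a.1.2.support, a.1.2 z • i (y z)}) ?_ ?_
  · intro a a' h h'
    apply Subtype.ext
    refine Prod.ext h (Finsupp.ext fun z => lam_inj _ _ fun j => ?_)
    exact hδ2 a.1.1 _ (a.2 z j) _ (h ▸ a'.2 z j) (h' (j, z))
  · rintro a v ⟨y, hy, rfl⟩
    funext j
    rw [hΦ2]
    by_cases hj : j.2 ∈ a.1.2.support
    · rw [Finset.sum_eq_single j.2]
      · have := h4 _ _ _ (hy _ hj).1
        rw [(hy _ hj).2] at this
        rw [this, mul_one]
      · intro z hz hne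
        rw [h5 _ _ _ (hy z hz).1 _ (by rw [(hy z hz).2]; exact hne.symm), mul_zero]
      · intro h; exact absurd hj h
    · rw [Finsupp.notMem_support_iff.mp hj, lam_zero, Rat.cast_zero]
      apply Finset.sum_eq_zero
      intro z hz
      rw [h5 _ _ _ (hy z hz).1 _ (by rw [(hy z hz).2]; rintro h; exact hj (h ▸ hz)), mul_zero]
  · intro v U hU hv
    obtain ⟨c, hc⟩ := (Finsupp.mem_span_range_iff_exists_finsupp (R := ℝ) (v := i) (x := v)).mp
      (by rw [hF.2.2.2.1]; trivial)
    let Ψ : (X → X) → L := fun y => ∑ x ∈ c.support, c x • i (y x)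
    have hΨ : Continuous Ψ := continuous_finsetSum _ fun x _ =>
      (hF.2.1.continuous.comp (continuous_apply x)).const_smul _
    have hΨ2 : Ψ id = v := hc
    have hn : Ψ ⁻¹' U ∈ 𝓝 (id : X → X) :=
      hΨ.continuousAt.preimage_mem_nhds (hU.mem_nhds (hΨ2 ▸ hv))
    have hε : ∃ ε > 0, ∀ y : X → X, (∀ x ∈ c.support, dist (y x) x < ε) → Ψ y ∈ U := by
      let r : (c.support → X) → X → X := fun y x => if h : x ∈ c.support then y ⟨x, h⟩ else x
      have hr : Continuous r := continuous_pi fun x => by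
        by_cases h : x ∈ c.support
        · simp only [r, h, dif_pos]; exact continuous_apply _
        · simp only [r, h, dif_neg, not_false_eq_true]; exact continuous_const
      have e : r Subtype.val = id := by
        funext x; by_cases h : x ∈ c.support <;> simp [r]
      obtain ⟨ε, hε, h⟩ := Metric.mem_nhds_iff.mp
        (hr.continuousAt.preimage_mem_nhds (e ▸ hn : Ψ ⁻¹' U ∈ 𝓝 (r Subtype.val)))
      refine ⟨ε, hε, fun y hy => ?_⟩
      have h6 : (fun x : c.support => y x) ∈ Metric.ball (Subtype.val : c.support → X) ε := by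
        rw [Metric.mem_ball, dist_pi_lt_iff hε]
        exact fun x => hy x x.2
      have h7 : Ψ (r fun x : c.support => y x) ∈ U := h h6
      have h8 : Ψ (r fun x : c.support => y x) = Ψ y :=
        Finset.sum_congr rfl fun x hx => by simp only [r, hx, dif_pos]
      rwa [h8] at h7
    obtain ⟨ε, hε, hεU⟩ := hε
    obtain ⟨η, hη, hη2⟩ := gap c.support
    obtain ⟨n, hn⟩ := exists_nat_one_div_lt (half_pos (lt_min hε hη))
    have hd : ∀ x y, σ n x = σ n y → dist x y < min ε η := by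
      intro x y h
      have a1 := h1 n x
      have a2 := h1 n y
      rw [← h] at a2
      have := dist_triangle_right x y (σ n x)
      linarith
    have hinj : InjOn (σ n) c.support :=
      fun x hx y hy h => hη2 x hx y hy ((hd x y h).trans_le (min_le_right _ _))
    obtain ⟨k, hk⟩ := ((eventually_all_finset c.support).mpr fun x _ => h2 n x).exists
    let a : X →₀ ℝ := c.mapDomain (σ n)
    have ha1 : a.support = c.support.image (σ n) := Finsupp.mapDomain_support_of_injOn c hinj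
    have ha2 : ∀ x ∈ c.support, a (σ n x) = c x :=
      fun x hx => Finsupp.mapDomain_apply' _ c subset_rfl hinj hx
    have hfin : (⋃ r ∈ range a, range (lam r)).Finite :=
      a.finite_range.biUnion fun r _ => lam_fin r
    have hsum : ∀ y : X → X, ∑ z ∈ a.support, a z • i (y z) = Ψ (fun x => y (σ n x)) := by
      intro y
      rw [ha1, Finset.sum_image hinj]
      exact Finset.sum_congr rfl fun x hx => by rw [ha2 x hx]
    refine ⟨⟨((n, k, hfin.toFinset), a), fun z h => ?_⟩, ?_, ?_⟩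
    · rw [Set.Finite.mem_toFinset]
      exact mem_biUnion ⟨z, rfl⟩ ⟨h, rfl⟩
    · let y : X → X := fun z => if h : ∃ x ∈ c.support, σ n x = z then h.choose else z
      have hy : ∀ x ∈ c.support, y (σ n x) = x := by
        intro x hx
        have h : ∃ x' ∈ c.support, σ n x' = σ n x := ⟨x, hx, rfl⟩
        simp only [y, dif_pos h]
        exact hinj h.choose_spec.1 hx h.choose_spec.2
      refine ⟨y, ?_, ?_⟩
      · intro z hz
        simp only [ha1, Finset.mem_image] at hz
        obtain ⟨x, hx, rfl⟩ := hz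
        rw [hy x hx]
        exact ⟨hk x hx, rfl⟩
      · show v = ∑ z ∈ a.support, a z • i (y z)
        rw [hsum, ← hΨ2]
        exact Finset.sum_congr rfl fun x hx => by beta_reduce; rw [hy x hx]; rfl
    · rintro v' ⟨y, hy, rfl⟩
      show ∑ z ∈ a.support, a z • i (y z) ∈ U
      rw [hsum]
      apply hεU
      intro x hx
      have hz : σ n x ∈ a.support := by rw [ha1]; exact Finset.mem_image_of_mem _ hx
      exact (hd _ _ (hy _ hz).2).trans_le (min_le_left _ _)

end Pool.Agent.Results.MP_f94ac9_gt.FreeParacompact
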